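import Mathlib

/-!
# Squad EVF (helper59): binary forms over the integers and their dehomogenisation
-/

namespace Pool.Agent.EVF.H59

open Polynomial

/-- chain rule for a polynomial in two variables -/
theorem chain {R : Type*} [CommRing R] (φ : MvPolynomial (Fin 2) R) (v : Fin 2 → R[X]) :
    derivative (MvPolynomial.aeval v φ) =
      MvPolynomial.aeval v (MvPolynomial.pderiv 0 φ) * derivative (v 0) +
      MvPolynomial.aeval v (MvPolynomial.pderiv 1 φ) * derivative (v 1) := by
  induction φ using MvPolynomial.induction_on with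
  | C a => simp
  | add p q hp hq => rw [map_add, derivative_add, hp, hq]; simp only [map_add]; ring
  | mul_X p i hp =>
    rw [map_mul, derivative_mul, hp]
    simp only [MvPolynomial.aeval_X, Derivation.leibniz, map_add, smul_eq_mul, map_mul,
      MvPolynomial.pderiv_X]
    fin_cases i
    · simp
      ring
    · simp
      ring

/-- the dehomogenisation of an irreducible form: in a factorisation one factor is a unit -/
theorem dehom_unit (φ : MvPolynomial (Fin 2) ℤ) (s : ℕ) (hφ : φ.IsHomogeneous s)
    (hirr : Irreducible φ) (hdeg : (MvPolynomial.aeval ![X, 1] φ : ℤ[X]).natDegree ≤ s)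
    (u v : ℤ[X]) (huv : (MvPolynomial.aeval ![X, 1] φ : ℤ[X]) = u * v) :
    IsUnit u ∨ IsUnit v := by
  have h0 : (MvPolynomial.aeval ![X, 1] φ : ℤ[X]) ≠ 0 := by
    intro h
    have h1 := homogenize_eq_of_isHomogeneous hφ h
    rw [homogenize_zero] at h1
    exact hirr.ne_zero h1.symm
  have hu0 : u ≠ 0 := by
    rintro rfl
    exact h0 (by rw [huv, zero_mul])
  have hv0 : v ≠ 0 := by
    rintro rfl
    exact h0 (by rw [huv, mul_zero])
  have hsum : u.natDegree + v.natDegree ≤ s := by
    rw [← natDegree_mul hu0 hv0, ← huv]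
    exact hdeg
  have h2 : φ = u.homogenize u.natDegree * v.homogenize (s - u.natDegree) := by
    rw [← homogenize_mul u v le_rfl (by omega), ← huv,
      show u.natDegree + (s - u.natDegree) = s by omega]
    exact (homogenize_eq_of_isHomogeneous hφ rfl).symm
  rcases hirr.isUnit_or_isUnit h2 with h | h
  · left
    have := h.map (MvPolynomial.aeval ![X, 1] : MvPolynomial (Fin 2) ℤ →ₐ[ℤ] ℤ[X])
    rwa [aeval_homogenize_X_one u le_rfl] at this
  · right
    have := h.map (MvPolynomial.aeval ![X, 1] : MvPolynomial (Fin 2) ℤ →ₐ[ℤ] ℤ[X])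
    rwa [aeval_homogenize_X_one v (by omega)] at this

/-- the dehomogenisation has no double root -/
theorem dehom_sep (φ : MvPolynomial (Fin 2) ℤ) (s : ℕ) (hφ : φ.IsHomogeneous s)
    (hirr : Irreducible φ) (hdeg : (MvPolynomial.aeval ![X, 1] φ : ℤ[X]).natDegree ≤ s)
    (z : ℂ) (h1 : aeval z (MvPolynomial.aeval ![X, 1] φ : ℤ[X]) = 0)
    (h2 : aeval z (derivative (MvPolynomial.aeval ![X, 1] φ : ℤ[X])) = 0) : False := by
  set g : ℤ[X] := MvPolynomial.aeval ![X, 1] φ with hg
  by_cases hu : IsUnit g
  · have h3 : IsUnit (aeval z g) := hu.map (aeval z)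
    rw [h1] at h3
    exact not_isUnit_zero h3
  · have hirr' : Irreducible g := ⟨hu, fun {u v} huv => dehom_unit φ s hφ hirr hdeg u v huv⟩
    have hnd : g.natDegree ≠ 0 := by
      intro h
      have h3 := eq_C_of_natDegree_eq_zero h
      rw [h3, aeval_C] at h1
      have h4 : g.coeff 0 = 0 := by
        have : ((g.coeff 0 : ℤ) : ℂ) = 0 := by simpa using h1
        exact_mod_cast this
      rw [h4, C_0] at h3
      exact hirr'.ne_zero h3
    have hprim : g.IsPrimitive := hirr'.isPrimitive hnd
    have hirrQ := (IsPrimitive.Int.irreducible_iff_irreducible_map_cast hprim).1 hirr'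
    have hsep := hirrQ.separable
    have h5 : aeval z (g.map (Int.castRingHom ℚ)) = 0 := by
      rw [← h1]
      exact Polynomial.aeval_map_algebraMap ℚ z g
    apply hsep.aeval_derivative_ne_zero h5
    rw [derivative_map, ← h2]
    exact Polynomial.aeval_map_algebraMap ℚ z (derivative g)

/-- degree of a substitution of linear polynomials -/
theorem subst_deg (φ : MvPolynomial (Fin 2) ℤ) (s : ℕ) (hφ : φ.IsHomogeneous s) (p q : ℤ[X])
    (hp : p.natDegree ≤ 1) (hq : q.natDegree ≤ 1) :
    (MvPolynomial.aeval ![p, q] φ : ℤ[X]).natDegree ≤ s ∧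
      (MvPolynomial.aeval ![p, q] φ : ℤ[X]).coeff s =
        MvPolynomial.eval ![p.coeff 1, q.coeff 1] φ := by
  have key : ∀ (A : Type) [CommRing A] [Algebra ℤ A] (w : Fin 2 → A),
      MvPolynomial.aeval w φ =
        ∑ m ∈ φ.support, algebraMap ℤ A (φ.coeff m) * (w 0 ^ m 0 * w 1 ^ m 1) := by
    intro A _ _ w
    rw [MvPolynomial.aeval_def, MvPolynomial.eval₂_eq']
    simp only [Fin.prod_univ_two]
  have hm : ∀ m ∈ φ.support, m 0 + m 1 = s := by
    intro m hm
    have h := hφ (MvPolynomial.mem_support_iff.1 hm)
    simpa [Finsupp.weight_apply, Finsupp.sum_fintype, Fin.sum_univ_two] using h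
  have hd : ∀ m ∈ φ.support, (p ^ m 0 * q ^ m 1).natDegree ≤ s := by
    intro m h
    refine natDegree_mul_le.trans ?_
    have h1 : (p ^ m 0).natDegree ≤ m 0 := natDegree_pow_le.trans (by nlinarith)
    have h2 : (q ^ m 1).natDegree ≤ m 1 := natDegree_pow_le.trans (by nlinarith)
    have := hm m h
    omega
  constructor
  · rw [key]
    apply natDegree_sum_le_of_forall_le
    intro m h
    rw [← C_eq_algebraMap]
    exact (natDegree_C_mul_le _ _).trans (by simpa using hd m h)
  · rw [key, finsetSum_coeff]
    have h3 : MvPolynomial.eval ![p.coeff 1, q.coeff 1] φ =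
        MvPolynomial.aeval ![p.coeff 1, q.coeff 1] φ := by
      rw [MvPolynomial.aeval_def, MvPolynomial.eval₂_eq', MvPolynomial.eval_eq']
      simp
    rw [h3, key]
    apply Finset.sum_congr rfl
    intro m h
    rw [← C_eq_algebraMap, coeff_C_mul]
    congr 1
    have h4 := hm m h
    rw [← h4]
    have e1 : (p ^ m 0).coeff (m 0) = p.coeff 1 ^ m 0 := by
      have := coeff_pow_of_natDegree_le (m := m 0) (n := 1) hp
      rwa [mul_one] at this
    have e2 : (q ^ m 1).coeff (m 1) = q.coeff 1 ^ m 1 := by
      have := coeff_pow_of_natDegree_le (m := m 1) (n := 1) hq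
      rwa [mul_one] at this
    have h5 : (![p, q] 0 ^ m 0 * ![p, q] 1 ^ m 1).coeff (m 0 + m 1) =
        (p ^ m 0).coeff (m 0) * (q ^ m 1).coeff (m 1) := by
      apply coeff_mul_add_eq_of_natDegree_le
      · exact natDegree_pow_le.trans (by simpa using Nat.mul_le_mul_left (m 0) hp)
      · exact natDegree_pow_le.trans (by simpa using Nat.mul_le_mul_left (m 1) hq)
    rw [h5, e1, e2]
    simp

/-- an irreducible form has no multiple zero over the complex numbers -/
theorem no_mult (φ : MvPolynomial (Fin 2) ℤ) (s : ℕ) (hφ : φ.IsHomogeneous s)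
    (hirr : Irreducible φ) (hs : 1 ≤ s) (v : Fin 2 → ℂ) (hv : v ≠ 0)
    (h0 : MvPolynomial.aeval v φ = 0)
    (h1 : MvPolynomial.aeval v (MvPolynomial.pderiv 0 φ) = 0)
    (h2 : MvPolynomial.aeval v (MvPolynomial.pderiv 1 φ) = 0) : False := by
  have hdc := subst_deg φ s hφ X 1 (by simp) (by simp)
  have hdeg := hdc.1
  have hco := hdc.2
  set g : ℤ[X] := MvPolynomial.aeval ![X, 1] φ with hg
  have hφg : g.homogenize s = φ := homogenize_eq_of_isHomogeneous hφ hg.symm
  have hval : ∀ (h : ℤ[X]) (n : ℕ), h.natDegree ≤ n → v 1 ≠ 0 →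
      MvPolynomial.aeval v (h.homogenize n) = aeval (v 0 / v 1) h * v 1 ^ n := by
    intro h n hn hv1
    have e1 : MvPolynomial.aeval v (h.homogenize n) =
        MvPolynomial.eval v ((h.map (algebraMap ℤ ℂ)).homogenize n) := by
      rw [homogenize_map, MvPolynomial.eval_map, MvPolynomial.aeval_def]
    rw [e1, eval_homogenize ((natDegree_map_le).trans hn) v hv1, eval_map_algebraMap]
  by_cases hv1 : v 1 = 0
  · have hv0 : v 0 ≠ 0 := by
      intro h
      apply hv
      funext i
      fin_cases i
      · exact h
      · exact hv1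
    -- the coefficient of `x ^ s` is zero
    have hcs : g.coeff s = 0 := by
      have e2 : MvPolynomial.aeval v φ = algebraMap ℤ ℂ (g.coeff s) * v 0 ^ s := by
        conv_lhs => rw [← hφg]
        unfold homogenize
        rw [map_sum, Finset.sum_eq_single (s, 0)]
        · rw [MvPolynomial.aeval_monomial]
          simp [Finsupp.prod_fintype, Fin.prod_univ_two]
        · rintro ⟨k, l⟩ hkl hne
          rw [Finset.HasAntidiagonal.mem_antidiagonal] at hkl
          have hl : l ≠ 0 := by
            rintro rfl
            apply hne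
            simp only [Prod.mk.injEq, and_true]
            simpa using hkl
          rw [MvPolynomial.aeval_monomial]
          simp [Finsupp.prod_fintype, Fin.prod_univ_two, hv1, hl]
        · intro h
          exact absurd (Finset.HasAntidiagonal.mem_antidiagonal.2 (by simp)) h
      rw [e2] at h0
      rcases mul_eq_zero.1 h0 with h | h
      · have : ((g.coeff s : ℤ) : ℂ) = 0 := by simpa using h
        exact_mod_cast this
      · exact absurd h (pow_ne_zero _ hv0)
    have hdeg' : g.natDegree ≤ s - 1 := by
      rcases Nat.lt_or_ge g.natDegree s with h | h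
      · omega
      · have h3 : g.natDegree = s := le_antisymm hdeg h
        have h4 : g = 0 := by
          rw [← leadingCoeff_eq_zero, leadingCoeff, h3, hcs]
        rw [h4, natDegree_zero]
        exact Nat.zero_le _
    have h5 : φ = g.homogenize (s - 1) * MvPolynomial.X 1 := by
      have e3 := homogenize_mul g 1 hdeg' (show (1 : ℤ[X]).natDegree ≤ 1 by simp)
      rw [mul_one, show s - 1 + 1 = s by omega, hφg, homogenize_one, pow_one] at e3
      exact e3
    have hunit : IsUnit (g.homogenize (s - 1)) := by
      rcases hirr.isUnit_or_isUnit h5 with h | h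
      · exact h
      · exfalso
        have h6 := h.map (MvPolynomial.aeval v : MvPolynomial (Fin 2) ℤ →ₐ[ℤ] ℂ)
        rw [MvPolynomial.aeval_X, hv1] at h6
        exact not_isUnit_zero h6
    rw [h5, Derivation.leibniz, map_add, smul_eq_mul, smul_eq_mul, map_mul, map_mul,
      MvPolynomial.pderiv_X_self, map_one, mul_one, MvPolynomial.aeval_X, hv1, zero_mul,
      add_zero] at h2
    have h7 := hunit.map (MvPolynomial.aeval v : MvPolynomial (Fin 2) ℤ →ₐ[ℤ] ℂ)
    rw [h2] at h7
    exact not_isUnit_zero h7
  · have e4 : aeval (v 0 / v 1) g = 0 := by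
      have e5 := hval g s hdeg hv1
      rw [hφg, h0] at e5
      rcases mul_eq_zero.1 e5.symm with h | h
      · exact h
      · exact absurd h (pow_ne_zero _ hv1)
    have e6 : (derivative g).homogenize (s - 1) = MvPolynomial.pderiv 0 φ := by
      apply homogenize_eq_of_isHomogeneous hφ.pderiv
      have e7 := chain φ ![X, 1]
      simp only [Matrix.cons_val_zero, Matrix.cons_val_one, derivative_X, derivative_one, mul_one,
        mul_zero, add_zero] at e7
      exact e7.symm
    have e8 : aeval (v 0 / v 1) (derivative g) = 0 := by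
      have e9 := hval (derivative g) (s - 1) ((natDegree_derivative_le g).trans (by omega)) hv1
      rw [e6, h1] at e9
      rcases mul_eq_zero.1 e9.symm with h | h
      · exact h
      · exact absurd h (pow_ne_zero _ hv1)
    exact dehom_sep φ s hφ hirr hdeg _ e4 e8

end Pool.Agent.EVF.H59
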