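import Pool.Agent.EVF.StmtsS
import Pool.Agent.Helper59_EVF.Base

/-!
# Squad EVF, row PRJ (helper59): the ring of a zero of a binary form
-/

namespace Pool.Agent.EVF.H59

open Polynomial

/-- value of a homogenisation at a point with nonzero second coordinate -/
theorem aeval_hom {K : Type} [Field K] (h : ℤ[X]) (n : ℕ) (hn : h.natDegree ≤ n) (v : Fin 2 → K)
    (hv : v 1 ≠ 0) :
    MvPolynomial.eval₂ (Int.castRingHom K) v (h.homogenize n) =
      h.eval₂ (Int.castRingHom K) (v 0 / v 1) * v 1 ^ n := by
  have e1 : MvPolynomial.eval₂ (Int.castRingHom K) v (h.homogenize n) =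
      MvPolynomial.eval v ((h.map (Int.castRingHom K)).homogenize n) := by
    rw [homogenize_map, MvPolynomial.eval_map]
  rw [e1, eval_homogenize ((natDegree_map_le).trans hn) v hv, eval_map]

/-- value of a homogenisation at a point with second coordinate zero -/
theorem aeval_hom_zero {K : Type} [Field K] (h : ℤ[X]) (n : ℕ) (v : Fin 2 → K)
    (hv : v 1 = 0) :
    MvPolynomial.eval₂ (Int.castRingHom K) v (h.homogenize n) = (h.coeff n : K) * v 0 ^ n := by
  unfold homogenize
  rw [MvPolynomial.eval₂_sum, Finset.sum_eq_single (n, 0)]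
  · rw [MvPolynomial.eval₂_monomial]
    simp [Finsupp.prod_fintype, Fin.prod_univ_two]
  · rintro ⟨k, l⟩ hkl hne
    rw [Finset.HasAntidiagonal.mem_antidiagonal] at hkl
    have hl : l ≠ 0 := by
      rintro rfl
      apply hne
      simp only [Prod.mk.injEq, and_true]
      simpa using hkl
    rw [MvPolynomial.eval₂_monomial]
    simp [Finsupp.prod_fintype, Fin.prod_univ_two, hv, hl]
  · intro h
    exact absurd (Finset.HasAntidiagonal.mem_antidiagonal.2 (by simp)) h

theorem aeval_cast {K : Type} [CommRing K] (φ : MvPolynomial (Fin 2) ℤ) (t : Fin 2 → ℤ) :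
    MvPolynomial.eval₂ (Int.castRingHom K) (fun l => ((t l : ℤ) : K)) φ =
      ((MvPolynomial.eval t φ : ℤ) : K) := by
  have h := MvPolynomial.eval₂_comp_left (Int.castRingHom K) (RingHom.id ℤ) t φ
  rw [MvPolynomial.eval₂_id] at h
  exact h.symm

theorem prj : PrjStmt := by
  intro n φ hn hφ hirr
  have hdc := subst_deg φ n hφ X 1 (by simp) (by simp)
  have hdeg := hdc.1
  clear hdc
  have hdu := dehom_unit φ n hφ hirr hdeg
  set g : ℤ[X] := MvPolynomial.aeval ![X, 1] φ with hg
  have hφg : g.homogenize n = φ := homogenize_eq_of_isHomogeneous hφ hg.symm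
  have hcastp : ∀ (p : ℕ) [Fact p.Prime] (m : ℤ),
      ((m : ℤ) : AlgebraicClosure (ZMod p)) = 0 ↔ (p : ℤ) ∣ m := by
    intro p _ m
    exact CharP.intCast_eq_zero_iff (AlgebraicClosure (ZMod p)) p m
  by_cases hnd : g.natDegree = 0
  · -- `φ` is the second variable times a unit
    obtain ⟨c, hc⟩ : ∃ c : ℤ, g = C c := ⟨_, eq_C_of_natDegree_eq_zero hnd⟩
    have h1 : φ = MvPolynomial.X 1 * (MvPolynomial.C c * MvPolynomial.X 1 ^ (n - 1)) := by
      rw [← hφg, hc, homogenize_C]
      obtain ⟨m, rfl⟩ : ∃ m, n = m + 1 := ⟨n - 1, by omega⟩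
      rw [Nat.add_sub_cancel, pow_succ]
      ring
    have h2 : IsUnit (MvPolynomial.C c * MvPolynomial.X 1 ^ (n - 1) :
        MvPolynomial (Fin 2) ℤ) := by
      rcases hirr.isUnit_or_isUnit h1 with h | h
      · exfalso
        have h3 := h.map (MvPolynomial.aeval (fun _ => (0 : ℤ)) :
          MvPolynomial (Fin 2) ℤ →ₐ[ℤ] ℤ)
        rw [MvPolynomial.aeval_X] at h3
        exact not_isUnit_zero h3
      · exact h
    generalize hu : (MvPolynomial.C c * MvPolynomial.X 1 ^ (n - 1) :
        MvPolynomial (Fin 2) ℤ) = u at h1 h2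
    refine ⟨ℤ, inferInstance, inferInstance, ![1, 0], 1, one_ne_zero, ?_, ?_, ?_⟩
    · intro d hd
      exact ⟨1, d, hd, by simp⟩
    · intro t₀ ht₀ h0
      rw [h1, map_mul, MvPolynomial.aeval_X] at h0
      have h3 : t₀ 1 = 0 := by
        rcases mul_eq_zero.1 h0 with h | h
        · exact h
        · have h4 := h2.map (MvPolynomial.aeval t₀ : MvPolynomial (Fin 2) ℤ →ₐ[ℤ] ℂ)
          rw [h] at h4
          exact absurd h4 not_isUnit_zero
      have h4 : t₀ 0 ≠ 0 := by
        intro h
        apply ht₀
        funext i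
        fin_cases i
        · exact h
        · exact h3
      refine ⟨Int.castRingHom ℂ, t₀ 0, (RingHom.injective_int (Int.castRingHom ℂ)), h4, ?_⟩
      intro l
      fin_cases l
      · simp
      · simpa using h3
    · intro p _ t _ hcop hdvd
      rw [h1, map_mul, MvPolynomial.eval_X] at hdvd
      have h3 : (p : ℤ) ∣ t 1 := by
        have h4 := h2.map (MvPolynomial.eval t)
        exact (h4.dvd_mul_right).1 hdvd
      have h4 : ¬ (p : ℤ) ∣ t 0 := by
        intro h
        have h5 := hcop.isUnit_of_dvd' h h3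
        have h6 := Int.isUnit_iff_natAbs_eq.1 h5
        rw [Int.natAbs_natCast] at h6
        exact (Fact.out : p.Prime).one_lt.ne' h6
      refine ⟨Int.castRingHom _, ((t 0 : ℤ) : AlgebraicClosure (ZMod p)), ?_, ?_⟩
      · rw [Ne, hcastp]
        exact h4
      · intro l
        fin_cases l
        · simp
        · have := (hcastp p (t 1)).2 h3
          simpa using this
  · -- `g` is irreducible
    have hgu : ¬ IsUnit g := by
      intro h
      exact hnd (natDegree_eq_zero_of_isUnit h)
    have hgirr : Irreducible g := ⟨hgu, fun {u v} huv => hdu u v huv⟩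
    have hcn : g.coeff n ≠ 0 := by
      intro hcs
      have hdeg' : g.natDegree ≤ n - 1 := by
        rcases Nat.lt_or_ge g.natDegree n with h | h
        · omega
        · have h3 : g.natDegree = n := le_antisymm hdeg h
          have h4 : g = 0 := by
            rw [← leadingCoeff_eq_zero, leadingCoeff, h3, hcs]
          exact absurd h4 hgirr.ne_zero
      have h5 : φ = g.homogenize (n - 1) * MvPolynomial.X 1 := by
        have e3 := homogenize_mul g 1 hdeg' (show (1 : ℤ[X]).natDegree ≤ 1 by simp)
        rw [mul_one, show n - 1 + 1 = n by omega, hφg, homogenize_one, pow_one] at e3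
        exact e3
      rcases hirr.isUnit_or_isUnit h5 with h | h
      · have h6 := h.map (MvPolynomial.aeval ![X, 1] : MvPolynomial (Fin 2) ℤ →ₐ[ℤ] ℤ[X])
        rw [aeval_homogenize_X_one g hdeg'] at h6
        exact hgu h6
      · have h3 := h.map (MvPolynomial.aeval (fun _ => (0 : ℤ)) :
          MvPolynomial (Fin 2) ℤ →ₐ[ℤ] ℤ)
        rw [MvPolynomial.aeval_X] at h3
        exact not_isUnit_zero h3
    have hdom : IsDomain (AdjoinRoot g) := AdjoinRoot.isDomain_of_prime hgirr.prime
    have hinj : ∀ d : AdjoinRoot g, d ≠ 0 →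
        ∃ (d' : AdjoinRoot g) (N : ℤ), N ≠ 0 ∧ d * d' = (N : AdjoinRoot g) := by
      intro d hd
      have halg : IsAlgebraic ℤ d := by
        have h3 := Algebra.isAlgebraic_adjoin_singleton_iff.mpr
          (AdjoinRoot.isAlgebraic_root hgirr.ne_zero)
        apply h3
        rw [AdjoinRoot.adjoinRoot_eq_top]
        exact Algebra.mem_top
      obtain ⟨N, hN, d', hd'⟩ := halg.exists_nonzero_dvd (mem_nonZeroDivisors_of_ne_zero hd)
      refine ⟨d', N, hN, ?_⟩
      rw [← hd']
      exact (eq_intCast (algebraMap ℤ (AdjoinRoot g)) N)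
    refine ⟨AdjoinRoot g, inferInstance, hdom, ![AdjoinRoot.root g, 1], (g.coeff n).natAbs,
      Int.natAbs_ne_zero.2 hcn, hinj, ?_, ?_⟩
    · intro t₀ ht₀ h0
      rw [MvPolynomial.aeval_def, RingHom.ext_int (algebraMap ℤ ℂ) (Int.castRingHom ℂ)] at h0
      have h1 : t₀ 1 ≠ 0 := by
        intro h
        rw [← hφg, aeval_hom_zero g n t₀ h] at h0
        rcases mul_eq_zero.1 h0 with h3 | h3
        · exact hcn (by exact_mod_cast h3)
        · apply ht₀
          funext i
          fin_cases i
          · exact pow_eq_zero_iff (by omega) |>.1 h3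
          · exact h
      have h2 : g.eval₂ (Int.castRingHom ℂ) (t₀ 0 / t₀ 1) = 0 := by
        rw [← hφg, aeval_hom g n hdeg t₀ h1] at h0
        rcases mul_eq_zero.1 h0 with h3 | h3
        · exact h3
        · exact absurd h3 (pow_ne_zero _ h1)
      refine ⟨AdjoinRoot.lift (Int.castRingHom ℂ) _ h2, t₀ 1, ?_, h1, ?_⟩
      · rw [injective_iff_map_eq_zero]
        intro d hd
        by_contra hne
        obtain ⟨d', N, hN, hdN⟩ := hinj d hne
        have h3 := congrArg (AdjoinRoot.lift (Int.castRingHom ℂ) _ h2) hdN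
        rw [map_mul, hd, zero_mul, map_intCast] at h3
        exact hN (by exact_mod_cast h3.symm)
      · intro l
        fin_cases l
        · simp [AdjoinRoot.lift_root, mul_div_cancel₀ _ h1]
        · simp
    · intro p hp t hpK hcop hdvd
      have h0 : MvPolynomial.eval₂ (Int.castRingHom (AlgebraicClosure (ZMod p)))
          (fun l => ((t l : ℤ) : AlgebraicClosure (ZMod p))) φ = 0 := by
        rw [aeval_cast, hcastp]
        exact hdvd
      have h1 : ((t 1 : ℤ) : AlgebraicClosure (ZMod p)) ≠ 0 := by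
        intro h
        rw [← hφg, aeval_hom_zero g n _ h] at h0
        rcases mul_eq_zero.1 h0 with h3 | h3
        · rw [hcastp] at h3
          exact hpK (Int.natCast_dvd.1 h3)
        · have h4 := pow_eq_zero_iff (by omega) |>.1 h3
          rw [hcastp] at h4 h
          have h5 := hcop.isUnit_of_dvd' h4 h
          have h6 := Int.isUnit_iff_natAbs_eq.1 h5
          rw [Int.natAbs_natCast] at h6
          exact (Fact.out : p.Prime).one_lt.ne' h6
      have h2 : g.eval₂ (Int.castRingHom (AlgebraicClosure (ZMod p)))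
          (((t 0 : ℤ) : AlgebraicClosure (ZMod p)) / ((t 1 : ℤ) : AlgebraicClosure (ZMod p))) =
            0 := by
        rw [← hφg, aeval_hom g n hdeg _ h1] at h0
        rcases mul_eq_zero.1 h0 with h3 | h3
        · exact h3
        · exact absurd h3 (pow_ne_zero _ h1)
      refine ⟨AdjoinRoot.lift (Int.castRingHom _) _ h2,
        ((t 1 : ℤ) : AlgebraicClosure (ZMod p)), h1, ?_⟩
      intro l
      fin_cases l
      · simp [AdjoinRoot.lift_root, mul_div_cancel₀ _ h1]
      · simp

end Pool.Agent.EVF.H59
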