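import Pool.Agent.EVF.StmtsR
import Pool.Agent.Helper59_EVF.Base

/-!
# Squad EVF, row SEP (helper59): the restriction of an irreducible form to a line not through the
origin is separable
-/

namespace Pool.Agent.EVF.H59

open Polynomial

theorem sep : SepStmt := by
  intro φ s hφ hirr hs a b e f hdet hef
  have hdc := subst_deg φ s hφ (C a + C e * X) (C b + C f * X) (by compute_degree)
    (by compute_degree)
  set R : ℤ[X] := MvPolynomial.aeval ![C a + C e * X, C b + C f * X] φ with hR
  have hco : R.coeff s = bv φ e f := by
    have e1 : ∀ x y : ℤ, (C x + C y * X : ℤ[X]).coeff 1 = y := by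
      intro x y
      rw [coeff_add, coeff_C_mul, coeff_X_one, coeff_C_succ, zero_add, mul_one]
    rw [hdc.2, e1, e1, bv]
  have hnd : R.natDegree = s := by
    apply le_antisymm hdc.1
    apply le_natDegree_of_ne_zero
    rw [hco]
    exact hef
  refine ⟨R, hnd, ?_, ?_, ?_⟩
  · apply (Polynomial.isCoprime_iff_aeval_ne_zero_of_isAlgClosed (k := ℚ) (K := ℂ) _ _).2
    intro c
    by_contra hcon
    push Not at hcon
    obtain ⟨h1, h2⟩ := hcon
    rw [derivative_map] at h2
    have h1' : aeval c R = 0 := by
      rw [← h1]
      exact (Polynomial.aeval_map_algebraMap ℚ c R).symm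
    have h2' : aeval c (derivative R) = 0 := by
      rw [← h2]
      exact (Polynomial.aeval_map_algebraMap ℚ c (derivative R)).symm
    set v : Fin 2 → ℂ := ![(a : ℂ) + e * c, (b : ℂ) + f * c] with hv
    have hsub : ∀ ψ : MvPolynomial (Fin 2) ℤ,
        aeval c (MvPolynomial.aeval ![C a + C e * X, C b + C f * X] ψ : ℤ[X]) =
          MvPolynomial.aeval v ψ := by
      intro ψ
      rw [MvPolynomial.comp_aeval_apply]
      congr 2
      funext i
      fin_cases i
      · simp [hv]
      · simp [hv]
    have hA : MvPolynomial.aeval v φ = 0 := by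
      rw [← hsub, ← hR]
      exact h1'
    have hB : MvPolynomial.aeval v (MvPolynomial.pderiv 0 φ) * e +
        MvPolynomial.aeval v (MvPolynomial.pderiv 1 φ) * f = 0 := by
      rw [hR, chain, map_add, map_mul, map_mul, hsub, hsub] at h2'
      simpa using h2'
    have hC : v 0 * MvPolynomial.aeval v (MvPolynomial.pderiv 0 φ) +
        v 1 * MvPolynomial.aeval v (MvPolynomial.pderiv 1 φ) = 0 := by
      have h3 := congrArg (MvPolynomial.aeval v) hφ.sum_X_mul_pderiv
      rw [Fin.sum_univ_two, map_add, map_mul, map_mul, MvPolynomial.aeval_X,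
        MvPolynomial.aeval_X, map_nsmul, hA, smul_zero] at h3
      exact h3
    have hD : v 0 * f - v 1 * e ≠ 0 := by
      have h4 : v 0 * f - v 1 * e = ((a * f - b * e : ℤ) : ℂ) := by
        simp only [hv, Matrix.cons_val_zero, Matrix.cons_val_one]
        push_cast
        ring
      rw [h4]
      exact_mod_cast hdet
    set P := MvPolynomial.aeval v (MvPolynomial.pderiv 0 φ) with hP
    set Q := MvPolynomial.aeval v (MvPolynomial.pderiv 1 φ) with hQ
    have hP0 : P = 0 := by
      have h5 : (v 0 * f - v 1 * e) * P = 0 := by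
        linear_combination (f : ℂ) * hC - v 1 * hB
      rcases mul_eq_zero.1 h5 with h | h
      · exact absurd h hD
      · exact h
    have hQ0 : Q = 0 := by
      have h5 : (v 0 * f - v 1 * e) * Q = 0 := by
        linear_combination v 0 * hB - (e : ℂ) * hC
      rcases mul_eq_zero.1 h5 with h | h
      · exact absurd h hD
      · exact h
    have hv0 : v ≠ 0 := by
      intro h
      apply hD
      rw [h]
      simp
    exact no_mult φ s hφ hirr hs v hv0 hA hP0 hQ0
  · rw [leadingCoeff, hnd, hco]
  · intro c
    rw [hR, bv]
    have h6 : (Polynomial.evalRingHom c) (MvPolynomial.aeval ![C a + C e * X, C b + C f * X] φ) =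
        MvPolynomial.eval ![a + c * e, b + c * f] φ := by
      rw [MvPolynomial.map_aeval]
      rw [MvPolynomial.eval, MvPolynomial.coe_eval₂Hom, MvPolynomial.coe_eval₂Hom]
      congr 1
      · ext
        simp
      · funext i
        fin_cases i
        · simp [mul_comm]
        · simp [mul_comm]
    exact h6

end Pool.Agent.EVF.H59
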