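import Pool.Agent.EVF.StmtsF

/-!
# Squad EVF, row RDA (helper59): the radical lemma for one polynomial
-/

namespace Pool.Agent.EVF.H59

open MvPolynomial
open Pool.Agent.RAD (Loc)
open Pool.Agent.Helper5Frey (partRad)

theorem box_finite {k : ℕ} (W : Fin k → ℕ) (B : ℕ) : (Box W B).Finite := by
  apply (Set.finite_Icc (fun l => -(B : ℤ) ^ W l) (fun l => (B : ℤ) ^ W l)).subset
  intro t ht
  exact ⟨fun l => (abs_le.1 (ht l)).1, fun l => (abs_le.1 (ht l)).2⟩

/-- values of polynomials with nonzero value are one hundred percent -/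
theorem almost_ne {k : ℕ} (hRem : RemStmt) (W : Fin k → ℕ) (κ : MvPolynomial (Fin k) ℤ)
    (hW : ∀ i, 1 ≤ W i) (hκ : κ ≠ 0) : AlmostAll W (fun _ t => eval t κ ≠ 0) := by
  obtain ⟨a, ha⟩ := MvPolynomial.ne_zero_iff.1 hκ
  have h := hRem k W κ a (1 / 2) hW (MvPolynomial.mem_support_iff.2 ha) (by norm_num)
  intro ε hε
  obtain ⟨B₀, hB₀⟩ := h ε hε
  refine ⟨max B₀ 1, fun B hB => ?_⟩
  refine le_trans ?_ (hB₀ B ((le_max_left _ _).trans hB))
  have hB1 : 1 ≤ B := (le_max_right _ _).trans hB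
  have hBpos : (0 : ℝ) < B := by exact_mod_cast hB1
  apply Nat.cast_le.2
  apply Set.ncard_le_ncard
  · rintro t ⟨ht, hn⟩
    refine ⟨ht, fun hc => ?_⟩
    have h0 : eval t κ = 0 := by
      by_contra hh
      exact hn hh
    have hc' : (B : ℝ) ^ (((∑ l, W l * a l : ℕ) : ℝ) - 1 / 2) ≤ |((eval t κ : ℤ) : ℝ)| := hc
    rw [h0, Int.cast_zero, abs_zero] at hc'
    exact absurd hc' (not_le.2 (Real.rpow_pos_of_pos hBpos _))
  · exact (box_finite W B).subset fun t ht => ht.1

theorem rda (hRad : Pool.Agent.RAD.Rad2Stmt) (hRem : RemStmt) (hBnd : BndStmt) (hSli : SliStmt)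
    (hSlc : SlcStmt) (hCof : CofStmt) : RdaStmt := by
  intro k W l φ κ ε hW hdeg hκ hκl hε hsl
  set D := degreeOf l φ with hD
  apply hSli k W l (fun _ t => eval t κ ≠ 0) _ (almost_ne hRem W κ hW hκ)
  intro δ hδ
  -- bounds
  choose Cf hCf1 hCf using fun i : ℕ => hBnd k W (coefl l i φ)
  obtain ⟨Cκ, hCκ1, hCκ⟩ := hBnd k W κ
  set E : ℕ := (∑ i ∈ Finset.range (D + 1), ∑ a ∈ (coefl l i φ).support, ∑ j, W j * a j) +
    ∑ a ∈ κ.support, ∑ j, W j * a j with hE
  have hEf : ∀ i ∈ Finset.range (D + 1), ∀ a ∈ (coefl l i φ).support, ∑ j, W j * a j ≤ E := by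
    intro i hi a ha
    have h1 : ∑ j, W j * a j ≤ ∑ a ∈ (coefl l i φ).support, ∑ j, W j * a j :=
      Finset.single_le_sum (f := fun a : Fin k →₀ ℕ => ∑ j, W j * a j)
        (fun _ _ => Nat.zero_le _) ha
    have h2 : ∑ a ∈ (coefl l i φ).support, ∑ j, W j * a j ≤
        ∑ i ∈ Finset.range (D + 1), ∑ a ∈ (coefl l i φ).support, ∑ j, W j * a j :=
      Finset.single_le_sum
        (f := fun i : ℕ => ∑ a ∈ (coefl l i φ).support, ∑ j, W j * a j)
        (fun _ _ => Nat.zero_le _) hi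
    omega
  have hEκ : ∀ a ∈ κ.support, ∑ j, W j * a j ≤ E := by
    intro a ha
    have h1 : ∑ j, W j * a j ≤ ∑ a ∈ κ.support, ∑ j, W j * a j :=
      Finset.single_le_sum (f := fun a : Fin k →₀ ℕ => ∑ j, W j * a j)
        (fun _ _ => Nat.zero_le _) ha
    omega
  set C : ℝ := (∑ i ∈ Finset.range (D + 1), Cf i) + Cκ with hC
  have hCi : ∀ i ∈ Finset.range (D + 1), Cf i ≤ C := by
    intro i hi
    have h1 : Cf i ≤ ∑ i ∈ Finset.range (D + 1), Cf i :=
      Finset.single_le_sum (f := Cf) (fun j _ => by linarith [hCf1 j]) hi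
    linarith
  have hCκ' : Cκ ≤ C := by
    have h1 : 0 ≤ ∑ i ∈ Finset.range (D + 1), Cf i :=
      Finset.sum_nonneg (fun j _ => by linarith [hCf1 j])
    linarith
  obtain ⟨H₀, hH₀⟩ := hRad D (E + 1) ε δ hdeg hε hδ
  refine ⟨max (max H₀ 1) ⌈C⌉₊, fun B hB t ht hGt => ?_⟩
  have hBH : H₀ ≤ B := (le_max_left _ _).trans ((le_max_left _ _).trans hB)
  have hB1 : 1 ≤ B := (le_max_right _ _).trans ((le_max_left _ _).trans hB)
  have hBC : C ≤ B := (Nat.le_ceil C).trans (by exact_mod_cast (le_max_right _ _).trans hB)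
  have hB1r : (1 : ℝ) ≤ B := by exact_mod_cast hB1
  have hBle : B ≤ B ^ W l := Nat.le_self_pow (by have := hW l; omega) B
  have hHH : H₀ ≤ B ^ W l := hBH.trans hBle
  -- the size of the values
  have hsize : ∀ x : ℤ, |((x : ℤ) : ℝ)| ≤ C * (B : ℝ) ^ E → |x| ≤ ((B ^ W l : ℕ) : ℤ) ^ (E + 1) := by
    intro x hx
    have h1 : C * (B : ℝ) ^ E ≤ (B : ℝ) ^ (E + 1) := by
      rw [pow_succ, mul_comm]
      exact mul_le_mul_of_nonneg_left hBC (by positivity)
    have h2 : (B : ℝ) ^ (E + 1) ≤ ((B ^ W l : ℕ) : ℝ) ^ (E + 1) := by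
      apply pow_le_pow_left₀ (by positivity)
      exact_mod_cast hBle
    have h3 : ((|x| : ℤ) : ℝ) ≤ (((B ^ W l : ℕ) : ℤ) ^ (E + 1) : ℤ) := by
      push_cast
      push_cast at h2
      linarith
    exact_mod_cast h3
  obtain ⟨hev, hcf, hnd, -⟩ := hSlc k l t φ
  obtain ⟨h1, h2, h3⟩ := hsl t hGt
  have hgood : Pool.Agent.RAD.Good D (E + 1) (B ^ W l) (slice l t φ) (eval t κ).natAbs :=
    { deg := h1
      coef := by
        intro i
        by_cases hi : i ∈ Finset.range (D + 1)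
        · apply hsize
          rw [hcf i]
          refine (hCf i E (hEf i hi) B hB1 t ht).trans ?_
          exact mul_le_mul_of_nonneg_right (hCi i hi) (by positivity)
        · have h4 : (slice l t φ).coeff i = 0 := by
            apply Polynomial.coeff_eq_zero_of_natDegree_lt
            rw [h1]
            rw [Finset.mem_range] at hi
            omega
          rw [h4, abs_zero]
          positivity
      one_le := Nat.one_le_iff_ne_zero.2 (Int.natAbs_ne_zero.2 hGt)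
      le := by
        have h4 := hsize (eval t κ) ((hCκ E hEκ B hB1 t ht).trans
          (mul_le_mul_of_nonneg_right hCκ' (by positivity)))
        rw [← Int.natCast_natAbs] at h4
        exact_mod_cast h4
      sep := h2
      loc := h3 }
  have hfin := hH₀ (B ^ W l) hHH (slice l t φ) (eval t κ).natAbs hgood
  have hcast : ((B ^ W l : ℕ) : ℝ) = (B : ℝ) ^ W l := by push_cast; rfl
  rw [hcast] at hfin
  refine le_trans ?_ hfin
  apply Nat.cast_le.2
  apply Set.ncard_le_ncard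
  · rintro c ⟨hc, hn⟩
    refine ⟨by exact_mod_cast hc, ?_⟩
    have h4 : eval (Function.update t l c) κ = eval t κ := (hCof k l κ).2.2.2.2 hκl t c
    have h5 : eval (Function.update t l c) φ = (slice l t φ).eval c := (hev c).symm
    rw [h4, h5] at hn
    by_contra hcon
    push Not at hcon
    apply hn
    refine ⟨hGt, hcon.1, ?_⟩
    have h6 : (B : ℝ) ^ ((W l : ℝ) * (2 - ε)) = ((B : ℝ) ^ W l) ^ (2 - ε) := by
      rw [Real.rpow_mul (by positivity), Real.rpow_natCast]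
    rw [h6]
    exact hcon.2.le
  · apply (Set.finite_Icc (-((B ^ W l : ℕ) : ℤ)) ((B ^ W l : ℕ) : ℤ)).subset
    rintro c ⟨hc, -⟩
    exact abs_le.1 hc

end Pool.Agent.EVF.H59
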